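import Pool.Agent.Helper12.VW.Defs

/-!
Gauss lemma for the denominator ideal of a factor over a number field (module VW-G3).
-/

open Polynomial NumberField Module

open scoped nonZeroDivisors

namespace Pool.Agent.Helper12.VW

/-- common denominator of the coefficients -/
theorem g3_denom {L : Type} [Field L] [NumberField L] (g : L[X]) :
    ∃ d : 𝓞 L, d ≠ 0 ∧ ∃ c : ℕ → 𝓞 L, ∀ i, (c i : L) = (d : L) * g.coeff i := by
  obtain ⟨b, hb⟩ := IsLocalization.exist_integer_multiples (𝓞 L)⁰ g.support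
    (fun i => g.coeff i)
  have h : ∀ i, ∃ z : 𝓞 L, (z : L) = ((b : 𝓞 L) : L) * g.coeff i := by
    intro i
    by_cases hi : i ∈ g.support
    · obtain ⟨z, hz⟩ := hb i hi
      exact ⟨z, by
        show algebraMap (𝓞 L) L z = _
        rw [hz]; exact Algebra.smul_def _ _⟩
    · refine ⟨0, ?_⟩
      rw [Polynomial.notMem_support_iff.mp hi, mul_zero]
      exact map_zero (algebraMap (𝓞 L) L)
  choose c hc using h
  exact ⟨b, nonZeroDivisors.coe_ne_zero b, c, hc⟩

/-- the denominator ideal -/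
theorem g3_ideal {L : Type} [Field L] [NumberField L] (g : L[X]) (hg : g.Monic) :
    ∃ J : Ideal (𝓞 L), J ≠ ⊥ ∧
      (∀ i : ℕ, ∀ y ∈ J, ∃ z : 𝓞 L, (y : L) * g.coeff i = z) ∧
      (∀ P : Ideal (𝓞 L), P ≠ ⊤ → ∃ y ∈ J, ∃ i : ℕ, ∃ z : 𝓞 L, (y : L) * g.coeff i = z ∧ z ∉ P) := by
  obtain ⟨d, hd, c, hc⟩ := g3_denom g
  have hdL : (d : L) ≠ 0 := by
    intro h; apply hd; exact RingOfIntegers.coe_injective (h.trans (map_zero _).symm)
  let I : Ideal (𝓞 L) := Ideal.span (Set.range c)
  have hdI : d ∈ I := by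
    apply Ideal.subset_span
    refine ⟨g.natDegree, ?_⟩
    apply RingOfIntegers.ext
    rw [hc, hg.coeff_natDegree, mul_one]
  have hle : Ideal.span {d} ≤ I := by
    rw [Ideal.span_singleton_le_iff_mem]; exact hdI
  obtain ⟨J, hJ⟩ := Ideal.dvd_iff_le.mpr hle
  have hA : ∀ i : ℕ, ∀ y ∈ J, ∃ z : 𝓞 L, (y : L) * g.coeff i = z ∧ y * c i = d * z := by
    intro i y hy
    have h1 : c i * y ∈ I * J := Ideal.mul_mem_mul (Ideal.subset_span ⟨i, rfl⟩) hy
    rw [← hJ, Ideal.mem_span_singleton] at h1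
    obtain ⟨z, hz⟩ := h1
    have h2 : (y : L) * (c i : L) = (d : L) * (z : L) := by
      rw [← map_mul, ← map_mul, ← hz, mul_comm]
    refine ⟨z, ?_, ?_⟩
    · apply mul_left_cancel₀ hdL
      rw [← h2, hc]; ring
    · rw [← hz, mul_comm]
  refine ⟨J, ?_, ?_, ?_⟩
  · rintro rfl
    rw [Ideal.mul_bot, Ideal.span_singleton_eq_bot] at hJ
    exact hd hJ
  · intro i y hy
    obtain ⟨z, hz, _⟩ := hA i y hy
    exact ⟨z, hz⟩
  · intro P hP
    by_contra hcon
    push Not at hcon
    apply hP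
    have h1 : I * J ≤ Ideal.span {d} * P := by
      rw [Ideal.mul_le]
      intro x hx y hy
      -- x in the span of the c i
      induction hx using Submodule.span_induction with
      | mem x hx =>
        obtain ⟨i, rfl⟩ := hx
        obtain ⟨z, hz, hz2⟩ := hA i y hy
        rw [mul_comm (c i) y, hz2]
        exact Ideal.mul_mem_mul (Ideal.mem_span_singleton_self d) (hcon y hy i z hz)
      | zero => rw [zero_mul]; exact Ideal.zero_mem _
      | add x x' _ _ h h' => rw [add_mul]; exact Ideal.add_mem _ h h'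
      | smul r x _ h => rw [smul_eq_mul, mul_assoc]; exact Ideal.mul_mem_left _ _ h
    rw [← hJ] at h1
    have h2 := h1 (Ideal.mem_span_singleton_self d)
    rw [Ideal.mem_span_singleton_mul] at h2
    obtain ⟨z, hz, hz2⟩ := h2
    have h3 : z = 1 := by
      apply mul_left_cancel₀ hd
      rw [hz2, mul_one]
    rw [Ideal.eq_top_iff_one, ← h3]
    exact hz

/-- the embedding with values in the algebraic integers -/
noncomputable def g3Tau {L : Type} [Field L] [NumberField L] (τ : L →+* ℂ) :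
    𝓞 L →+* integralClosure ℤ ℂ :=
  (τ.comp (algebraMap (𝓞 L) L)).codRestrict (integralClosure ℤ ℂ) (by
    intro x
    rw [RingHom.comp_apply]
    exact (RingOfIntegers.isIntegral_coe x).map (τ.toIntAlgHom))

theorem g3Tau_apply {L : Type} [Field L] [NumberField L] (τ : L →+* ℂ) (x : 𝓞 L) :
    ((g3Tau τ x : integralClosure ℤ ℂ) : ℂ) = τ x := rfl

/-- the key step at one prime -/
theorem g3_prime {n : ℕ} (a : Fin (n + 1) → ℤ) (L : Type) [Field L] [NumberField L] (g : L[X])
    (hnf : (toPoly a).map (Int.castRingHom ℂ) =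
      C ((a (Fin.last n) : ℤ) : ℂ) * ∏ τ : L →+* ℂ, g.map τ)
    (p : ℕ) (hp : p.Prime) (y : 𝓞 L) (w : ℕ → 𝓞 L) (hw : ∀ i, (y : L) * g.coeff i = w i)
    (hP : ∀ P : Ideal (𝓞 L), P.IsPrime → (p : 𝓞 L) ∈ P → ∃ i, w i ∉ P)
    (t s : ℕ) (ht : ∃ a' : ℤ, a (Fin.last n) = p ^ t * a' ∧ ¬ ((p : ℤ) ∣ a'))
    (hs : ∃ N' : ℤ, Algebra.norm ℤ y = p ^ s * N') : s ≤ t := by
  classical
  by_contra hst
  push Not at hst
  obtain ⟨a', ha', hpa'⟩ := ht
  obtain ⟨N', hN'⟩ := hs
  -- the integral polynomial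
  have hG : ∃ G : (𝓞 L)[X], G.map (algebraMap (𝓞 L) L) = C (y : L) * g ∧ ∀ i, G.coeff i = w i := by
    have hzero : ∀ i, g.natDegree < i → w i = 0 := by
      intro i hi
      apply RingOfIntegers.ext
      rw [← hw, Polynomial.coeff_eq_zero_of_natDegree_lt hi, mul_zero]
      exact (map_zero (algebraMap (𝓞 L) L)).symm
    refine ⟨∑ i ∈ Finset.range (g.natDegree + 1), C (w i) * X ^ i, ?_, ?_⟩
    · ext i
      rw [Polynomial.coeff_map, Polynomial.finsetSum_coeff, Polynomial.coeff_C_mul, hw]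
      congr 1
      simp only [Polynomial.coeff_C_mul_X_pow]
      by_cases hi : i < g.natDegree + 1
      · rw [Finset.sum_ite_eq, if_pos (Finset.mem_range.mpr hi)]
      · rw [Finset.sum_ite_eq, if_neg (by simpa using hi), hzero i (by omega)]
    · intro i
      rw [Polynomial.finsetSum_coeff]
      simp only [Polynomial.coeff_C_mul_X_pow]
      by_cases hi : i < g.natDegree + 1
      · rw [Finset.sum_ite_eq, if_pos (Finset.mem_range.mpr hi)]
      · rw [Finset.sum_ite_eq, if_neg (by simpa using hi), hzero i (by omega)]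
  obtain ⟨G, hG1, hG2⟩ := hG
  let Z : Type := integralClosure ℤ ℂ
  let _ : CommRing Z := inferInstanceAs (CommRing (integralClosure ℤ ℂ))
  let ι : Z →+* ℂ := (integralClosure ℤ ℂ).val.toRingHom
  have hι : Function.Injective ι := Subtype.val_injective
  let F : Z[X] := ∏ τ : L →+* ℂ, G.map (g3Tau τ)
  have hid : C ((a (Fin.last n) : ℤ) : Z) * F
      = C ((Algebra.norm ℤ y : ℤ) : Z) * (toPoly a).map (Int.castRingHom Z) := by
    apply Polynomial.map_injective ι hι
    rw [Polynomial.map_mul, Polynomial.map_mul, Polynomial.map_prod, Polynomial.map_C,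
      Polynomial.map_C, map_intCast, map_intCast, Polynomial.map_map]
    have h1 : ι.comp (Int.castRingHom Z) = Int.castRingHom ℂ := RingHom.ext_int _ _
    have h2 : ∀ τ : L →+* ℂ, (G.map (g3Tau τ)).map ι = C (τ y) * g.map τ := by
      intro τ
      rw [Polynomial.map_map]
      have h3 : ι.comp (g3Tau τ) = τ.comp (algebraMap (𝓞 L) L) := by
        ext x; rfl
      rw [h3, ← Polynomial.map_map, hG1, Polynomial.map_mul, Polynomial.map_C]
    rw [h1, hnf, Finset.prod_congr rfl (fun τ _ => h2 τ), Finset.prod_mul_distrib, ← map_prod]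
    have h4 : (∏ τ : L →+* ℂ, τ y) = ((Algebra.norm ℤ y : ℤ) : ℂ) := by
      have h5 := Algebra.norm_eq_prod_embeddings ℚ ℂ (y : L)
      rw [← Algebra.coe_norm_int] at h5
      have h6 : (∏ τ : L →+* ℂ, τ y) = ∏ σ : L →ₐ[ℚ] ℂ, σ y := by
        refine Fintype.prod_equiv (RingHom.equivRatAlgHom L ℂ) _ _ ?_
        intro τ
        rw [RingHom.equivRatAlgHom_apply]; rfl
      rw [h6, ← h5]
      simp
    rw [h4]
    simp only [map_intCast]
    ring
  -- a maximal ideal above p
  have hmax : (Ideal.span {(p : ℤ)}).IsMaximal :=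
    PrincipalIdealRing.isMaximal_of_irreducible (Nat.prime_iff_prime_int.mp hp).irreducible
  have hinj : Function.Injective (algebraMap ℤ Z) := by
    intro x x' hx
    have h1 : ι (algebraMap ℤ Z x) = ι (algebraMap ℤ Z x') := by rw [hx]
    simpa using h1
  obtain ⟨Q, hQ, hQp⟩ := Ideal.exists_ideal_over_maximal_of_isIntegral (S := Z)
    (Ideal.span {(p : ℤ)}) (by
      rw [(RingHom.injective_iff_ker_eq_bot _).mp hinj]; exact bot_le)
  have hQint : ∀ x : ℤ, ((x : Z) ∈ Q) ↔ (p : ℤ) ∣ x := by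
    intro x
    rw [← Ideal.mem_span_singleton, ← hQp, Ideal.mem_comap]
    simp
  have hdom : IsDomain (Z ⧸ Q) := by
    have := hQ.isPrime
    exact Ideal.Quotient.isDomain Q
  let π : Z →+* Z ⧸ Q := Ideal.Quotient.mk Q
  have hF : F.map π ≠ 0 := by
    rw [Polynomial.map_prod, Finset.prod_ne_zero_iff]
    intro τ _ h0
    rw [Polynomial.map_map] at h0
    obtain ⟨i, hi⟩ := hP (RingHom.ker (π.comp (g3Tau τ))) (RingHom.ker_isPrime _) (by
      rw [RingHom.mem_ker, map_natCast]
      have h1 : ((p : ℤ) : Z) ∈ Q := (hQint p).mpr dvd_rfl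
      have h2 : π ((p : ℤ) : Z) = 0 := Ideal.Quotient.eq_zero_iff_mem.mpr h1
      rw [map_intCast] at h2
      simpa using h2)
    apply hi
    rw [RingHom.mem_ker]
    have h3 : (G.map (π.comp (g3Tau τ))).coeff i = 0 := by rw [h0, Polynomial.coeff_zero]
    rw [Polynomial.coeff_map, hG2] at h3
    exact h3
  have hZdom : IsDomain Z := inferInstanceAs (IsDomain (integralClosure ℤ ℂ))
  have hp0 : ((p : ℤ) : Z) ≠ 0 := by
    intro h
    have h1 : ι ((p : ℤ) : Z) = 0 := by rw [h, map_zero]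
    rw [map_intCast] at h1
    have h2 : ((p : ℤ) : ℂ) ≠ 0 := by
      have := hp.ne_zero
      exact_mod_cast this
    exact h2 h1
  obtain ⟨e, he⟩ : ∃ e, s = t + (e + 1) := ⟨s - t - 1, by omega⟩
  have hcan : C ((a' : ℤ) : Z) * F
      = C (((p : ℤ) : Z) * (((p : ℤ) : Z) ^ e * ((N' : ℤ) : Z))) *
        (toPoly a).map (Int.castRingHom Z) := by
    have hpt : C (((p : ℤ) : Z) ^ t) ≠ 0 := by
      rw [Ne, Polynomial.C_eq_zero]
      exact pow_ne_zero _ hp0
    apply mul_left_cancel₀ hpt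
    rw [← mul_assoc, ← mul_assoc, ← C_mul, ← C_mul]
    have h1 : ((p : ℤ) : Z) ^ t * ((a' : ℤ) : Z) = ((a (Fin.last n) : ℤ) : Z) := by
      rw [ha']; push_cast; ring
    have h2 : ((p : ℤ) : Z) ^ t * (((p : ℤ) : Z) * (((p : ℤ) : Z) ^ e * ((N' : ℤ) : Z)))
        = ((Algebra.norm ℤ y : ℤ) : Z) := by
      rw [hN', he]; push_cast; ring
    rw [h1, h2, hid]
  have hmod := congrArg (Polynomial.map π) hcan
  rw [Polynomial.map_mul, Polynomial.map_mul, Polynomial.map_C, Polynomial.map_C, map_mul] at hmod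
  have hπp : π ((p : ℤ) : Z) = 0 := Ideal.Quotient.eq_zero_iff_mem.mpr ((hQint p).mpr dvd_rfl)
  rw [hπp, zero_mul, C_0, zero_mul] at hmod
  rcases mul_eq_zero.mp hmod with h | h
  · rw [Polynomial.C_eq_zero] at h
    exact hpa' ((hQint a').mp (Ideal.Quotient.eq_zero_iff_mem.mp h))
  · exact hF h

/-- VW-G3: Gauss lemma for the denominator ideal. -/
theorem absNorm_denominator_le {n : ℕ} (a : Fin (n + 1) → ℤ) (hlast : a (Fin.last n) ≠ 0)
    (hprim : (toPoly a).IsPrimitive) (L : Type) [Field L] [NumberField L] (g : L[X])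
    (hg : g.Monic) (hnf : (toPoly a).map (Int.castRingHom ℂ) =
      C ((a (Fin.last n) : ℤ) : ℂ) * ∏ τ : L →+* ℂ, g.map τ) :
    ∃ J : Ideal (𝓞 L), J ≠ ⊥ ∧ (J.absNorm : ℤ) ≤ |a (Fin.last n)| ∧
      ∀ i : ℕ, ∀ y ∈ J, ∃ z : 𝓞 L, (y : L) * g.coeff i = z := by
  obtain ⟨J, hJ, hJ1, hJ2⟩ := g3_ideal g hg
  refine ⟨J, hJ, ?_, hJ1⟩
  have hdvd : J.absNorm ∣ (a (Fin.last n)).natAbs := by
    rw [Nat.dvd_iff_prime_pow_dvd_dvd]
    intro p s hp hps
    -- the generator at p
    have hpJ : Ideal.span {(p : 𝓞 L)} * J ≤ J := Ideal.mul_le_right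
    have hp0 : (p : 𝓞 L) ≠ 0 := by
      have := hp.ne_zero
      exact_mod_cast this
    obtain ⟨y, hy⟩ := IsDedekindDomain.exists_sup_span_eq hpJ (by
      rw [Submodule.zero_eq_bot]
      intro h
      rw [Ideal.mul_eq_bot] at h
      rcases h with h | h
      · rw [Ideal.span_singleton_eq_bot] at h; exact hp0 h
      · exact hJ h)
    have hyJ : y ∈ J := by
      rw [← hy]
      exact Ideal.mem_sup_right (Ideal.mem_span_singleton_self y)
    choose w hw using fun i => hJ1 i y hyJ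
    have hprime : ∀ P : Ideal (𝓞 L), P.IsPrime → (p : 𝓞 L) ∈ P → ∃ i, w i ∉ P := by
      intro P hP hpP
      obtain ⟨y', hy', i, z, hz, hzP⟩ := hJ2 P hP.ne_top
      refine ⟨i, fun hwi => hzP ?_⟩
      rw [← hy, Submodule.mem_sup] at hy'
      obtain ⟨u, hu, v, hv, huv⟩ := hy'
      rw [Ideal.mem_span_singleton_mul] at hu
      obtain ⟨j, hj, rfl⟩ := hu
      rw [Ideal.mem_span_singleton] at hv
      obtain ⟨r, rfl⟩ := hv
      obtain ⟨x, hx⟩ := hJ1 i j hj
      have hzeq : z = p * x + r * w i := by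
        apply RingOfIntegers.ext
        have e1 : (y' : L) = (p : L) * (j : L) + (y : L) * (r : L) := by
          rw [← huv]
          show algebraMap (𝓞 L) L _ = _
          simp only [map_add, map_mul, map_natCast]
        have e2 : ((p * x + r * w i : 𝓞 L) : L) = (p : L) * (x : L) + (r : L) * (w i : L) := by
          show algebraMap (𝓞 L) L _ = _
          simp only [map_add, map_mul, map_natCast]
        rw [e2, ← hz, e1, ← hx, ← hw i]
        ring
      rw [hzeq]
      exact Ideal.add_mem _ (Ideal.mul_mem_right _ _ hpP) (Ideal.mul_mem_left _ _ hwi)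
    obtain ⟨t, m, hm, hat⟩ := Nat.exists_eq_pow_mul_and_not_dvd
      (Int.natAbs_ne_zero.mpr hlast) p hp.ne_one
    have hst : s ≤ t := by
      refine g3_prime a L g hnf p hp y w (fun i => hw i) hprime t s ?_ ?_
      · rcases Int.natAbs_eq (a (Fin.last n)) with h | h
        · refine ⟨m, ?_, ?_⟩
          · rw [h, hat]; push_cast; ring
          · rw [Int.natCast_dvd_natCast]; exact hm
        · refine ⟨-m, ?_, ?_⟩
          · rw [h, hat]; push_cast; ring
          · rw [dvd_neg, Int.natCast_dvd_natCast]; exact hm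
      · have h1 : J.absNorm ∣ (Algebra.norm ℤ y).natAbs := by
          rw [← Ideal.absNorm_span_singleton]
          apply Ideal.absNorm_dvd_absNorm_of_le
          rw [Ideal.span_singleton_le_iff_mem]; exact hyJ
        have h2 : ((p ^ s : ℕ) : ℤ) ∣ Algebra.norm ℤ y := by
          rw [Int.natCast_dvd]; exact hps.trans h1
        obtain ⟨N', hN'⟩ := h2
        exact ⟨N', by rw [hN']; push_cast; ring⟩
    rw [hat]
    exact (pow_dvd_pow p hst).trans (dvd_mul_right _ _)
  have h1 := Nat.le_of_dvd (Int.natAbs_pos.mpr hlast) hdvd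
  rw [Int.abs_eq_natAbs]
  exact_mod_cast h1

end Pool.Agent.Helper12.VW
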