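import Pool.Agent.Helper12.VW.Defs

/-!
Determinant inequality in the inverse of an ideal (module VW-G6).
-/

open Polynomial NumberField Module

open scoped nonZeroDivisors

namespace Pool.Agent.Helper12.VW

/-- powers of a primitive element are independent -/
theorem g6_lin (k : ℕ) (L : Type) [Field L] [NumberField L] (hk : finrank ℚ L = k)
    (hprim : IsPrim L) (w : L) (hw : ∀ q : ℚ, w ≠ algebraMap ℚ L q) :
    LinearIndependent ℚ (fun i : Fin k => w ^ (i : ℕ)) := by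
  have h1 : IntermediateField.adjoin ℚ {w} = ⊤ := by
    rcases hprim (IntermediateField.adjoin ℚ {w}) with h | h
    · exfalso
      have h2 : w ∈ IntermediateField.adjoin ℚ {w} := IntermediateField.mem_adjoin_simple_self ℚ w
      rw [h, IntermediateField.mem_bot] at h2
      obtain ⟨q, hq⟩ := h2
      exact hw q hq.symm
    · exact h
  have h2 : (minpoly ℚ w).natDegree = k := by
    rw [← IntermediateField.adjoin.finrank (Algebra.IsIntegral.isIntegral w), h1,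
      IntermediateField.finrank_top', hk]
  have h3 := linearIndependent_pow (K := ℚ) w
  subst h2
  exact h3

theorem g6_pow_mem {L : Type} [Field L] [NumberField L] (U : FractionalIdeal (𝓞 L)⁰ L) {z : L}
    (hz : z ∈ U) (n : ℕ) : z ^ n ∈ U ^ n := by
  induction n with
  | zero => rw [pow_zero, pow_zero]; exact FractionalIdeal.one_mem_one _
  | succ n ih => rw [pow_succ, pow_succ]; exact FractionalIdeal.mul_mem_mul ih hz

theorem g6_mem_inv {L : Type} [Field L] [NumberField L] {J : Ideal (𝓞 L)} (hJ : J ≠ ⊥) {z : L}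
    (hz : ∀ y ∈ J, ∃ x : 𝓞 L, (y : L) * z = x) : z ∈ (J : FractionalIdeal (𝓞 L)⁰ L)⁻¹ := by
  rw [FractionalIdeal.mem_inv_iff (by rwa [Ne, FractionalIdeal.coeIdeal_eq_zero])]
  intro y hy
  rw [FractionalIdeal.mem_coeIdeal] at hy
  obtain ⟨y', hy', rfl⟩ := hy
  obtain ⟨x, hx⟩ := hz y' hy'
  rw [FractionalIdeal.mem_one_iff]
  exact ⟨x, by rw [mul_comm]; exact hx.symm⟩

/-- the discriminant of independent elements of a fractional ideal -/
theorem g6_discr {L : Type} [Field L] [NumberField L] {k : ℕ} (hk : finrank ℚ L = k)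
    (U : (FractionalIdeal (𝓞 L)⁰ L)ˣ) (y : Fin k → L) (hy : ∀ i, y i ∈ U.1)
    (hli : LinearIndependent ℚ y) :
    |(discr L : ℚ)| * (FractionalIdeal.absNorm U.1) ^ 2 ≤ |Algebra.discr ℚ y| := by
  classical
  have hcard1 : Fintype.card (Module.Free.ChooseBasisIndex ℤ (𝓞 L)) = Fintype.card (Fin k) := by
    rw [← finrank_eq_card_chooseBasisIndex, RingOfIntegers.rank, hk, Fintype.card_fin]
  have hcard2 : Fintype.card (Module.Free.ChooseBasisIndex ℤ U.1) = Fintype.card (Fin k) := by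
    rw [← finrank_eq_card_chooseBasisIndex, fractionalIdeal_rank, RingOfIntegers.rank, hk,
      Fintype.card_fin]
  let g := Fintype.equivOfCardEq hcard1
  let g' := Fintype.equivOfCardEq hcard2
  let B0 : Basis (Fin k) ℚ L := (integralBasis L).reindex g
  let B1 : Basis (Fin k) ℚ L := (basisOfFractionalIdeal L U).reindex g'
  have h01 : |B0.det B1| = FractionalIdeal.absNorm U.1 := by
    rw [← det_basisOfFractionalIdeal_eq_absNorm L U (g.trans g'.symm)]
    congr 1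
    rw [Basis.det_reindex]
    congr 1
    ext i
    simp [B1, Basis.reindex_apply]
  -- integral matrix
  have hint : ∀ i j, ∃ n : ℤ, (n : ℚ) = B1.toMatrix y i j := by
    intro i j
    have h1 : y j ∈ Submodule.span ℤ (Set.range B1) := by
      have h2 : Set.range B1 = Set.range (basisOfFractionalIdeal L U) := by
        simp [B1]
      rw [h2, mem_span_basisOfFractionalIdeal]
      exact hy j
    obtain ⟨n, hn⟩ := (B1.mem_span_iff_repr_mem ℤ _).mp h1 i
    exact ⟨n, by rw [Basis.toMatrix_apply, ← hn]; simp⟩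
  choose A hA using hint
  have hdet : (B1.toMatrix y).det = ((Matrix.det (Matrix.of A) : ℤ) : ℚ) := by
    have : B1.toMatrix y = (Matrix.of A).map (Int.castRingHom ℚ) := by
      ext i j
      simp [hA]
    rw [this, ← RingHom.mapMatrix_apply, ← RingHom.map_det]
    rfl
  have hne : (B1.toMatrix y).det ≠ 0 := by
    have h1 : IsUnit (B1.det y) := by
      rw [← Module.Basis.is_basis_iff_det]
      refine ⟨hli, ?_⟩
      have := hli.span_eq_top_of_card_eq_finrank' (by rw [Fintype.card_fin, hk])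
      exact this
    rw [Basis.det_apply] at h1
    exact h1.ne_zero
  have hge : 1 ≤ |(B1.toMatrix y).det| := by
    rw [hdet] at hne ⊢
    have : (Matrix.det (Matrix.of A)) ≠ 0 := by
      intro h; apply hne; rw [h]; simp
    have h2 := Int.one_le_abs this
    exact_mod_cast h2
  have hB0y : (B0.toMatrix y).det = B0.det B1 * (B1.toMatrix y).det := by
    rw [Basis.det_apply, ← Matrix.det_mul, Basis.toMatrix_mul_toMatrix]
  have hdisc : Algebra.discr ℚ y = (B0.toMatrix y).det ^ 2 * (discr L : ℚ) := by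
    have h1 := Algebra.discr_of_matrix_vecMul (A := ℚ) (B := L) (B0 : Fin k → L) (B0.toMatrix y)
    rw [Basis.toMatrix_map_vecMul] at h1
    rw [h1]
    congr 1
    rw [coe_discr]
    exact Algebra.discr_reindex ℚ (integralBasis L) g ▸ by
      congr 1
      ext i
      simp [B0, Basis.reindex_apply]
  rw [hdisc, hB0y, abs_mul, abs_pow, abs_mul, h01, mul_pow]
  have hD : 0 ≤ |(discr L : ℚ)| := abs_nonneg _
  have hN : 0 ≤ (FractionalIdeal.absNorm U.1 : ℚ) ^ 2 := by positivity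
  have h5 : 1 ≤ |(B1.toMatrix y).det| ^ 2 := one_le_pow₀ hge
  calc |(discr L : ℚ)| * FractionalIdeal.absNorm U.1 ^ 2
      = FractionalIdeal.absNorm U.1 ^ 2 * 1 * |(discr L : ℚ)| := by ring
    _ ≤ _ := by gcongr

/-- upper bound for the discriminant of `z ^ (k - 1 - i) * z' ^ i` -/
theorem g6_upper {L : Type} [Field L] [NumberField L] {k : ℕ} (hk : finrank ℚ L = k)
    (t : (L →+* ℂ) → ℝ) (z z' : L) (ht : ∀ τ : L →+* ℂ, ‖τ z‖ ≤ t τ ∧ ‖τ z'‖ ≤ t τ) :
    |(Algebra.discr ℚ (fun i : Fin k => z ^ (k - 1 - (i : ℕ)) * z' ^ (i : ℕ)) : ℝ)| ≤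
      ((k.factorial : ℝ) * (∏ τ, t τ) ^ (k - 1)) ^ 2 := by
  classical
  have ht0 : ∀ τ, 0 ≤ t τ := fun τ => le_trans (norm_nonneg _) (ht τ).1
  have hcard : Fintype.card (Fin k) = Fintype.card (L →ₐ[ℚ] ℂ) := by
    rw [Fintype.card_fin, AlgHom.card, hk]
  let e : Fin k ≃ (L →ₐ[ℚ] ℂ) := Fintype.equivOfCardEq hcard
  let y : Fin k → L := fun i => z ^ (k - 1 - (i : ℕ)) * z' ^ (i : ℕ)
  have h1 := Algebra.discr_eq_det_embeddingsMatrixReindex_pow_two ℚ ℂ y e
  have hprod : ∏ i : Fin k, t (e i : L →+* ℂ) = ∏ τ, t τ := by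
    rw [← Equiv.prod_comp (RingHom.equivRatAlgHom L ℂ).symm t, ← Equiv.prod_comp e]
    rfl
  have hentry : ∀ i j : Fin k, ‖Algebra.embeddingsMatrixReindex ℚ ℂ y e i j‖ ≤
      t (e j : L →+* ℂ) ^ (k - 1) := by
    intro i j
    have h2 : Algebra.embeddingsMatrixReindex ℚ ℂ y e i j =
        (e j : L →+* ℂ) z ^ (k - 1 - (i : ℕ)) * (e j : L →+* ℂ) z' ^ (i : ℕ) := by
      simp [Algebra.embeddingsMatrixReindex, Algebra.embeddingsMatrix, y]
    rw [h2, norm_mul, norm_pow, norm_pow]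
    have h3 : k - 1 = (k - 1 - (i : ℕ)) + (i : ℕ) := by have := i.2; omega
    calc _ ≤ t (e j : L →+* ℂ) ^ (k - 1 - (i : ℕ)) * t (e j : L →+* ℂ) ^ (i : ℕ) :=
          mul_le_mul (pow_le_pow_left₀ (norm_nonneg _) (ht _).1 _)
            (pow_le_pow_left₀ (norm_nonneg _) (ht _).2 _) (by positivity) (pow_nonneg (ht0 _) _)
      _ = _ := by rw [← pow_add, ← h3]
  have hdet : ‖(Algebra.embeddingsMatrixReindex ℚ ℂ y e).det‖ ≤
      (k.factorial : ℝ) * (∏ τ, t τ) ^ (k - 1) := by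
    rw [Matrix.det_apply']
    refine (norm_sum_le _ _).trans ?_
    have h2 : ∀ σ : Equiv.Perm (Fin k), ‖((Equiv.Perm.sign σ : ℤ) : ℂ) *
        ∏ i, Algebra.embeddingsMatrixReindex ℚ ℂ y e (σ i) i‖ ≤ (∏ τ, t τ) ^ (k - 1) := by
      intro σ
      rw [norm_mul, norm_prod]
      have h3 : ‖((Equiv.Perm.sign σ : ℤ) : ℂ)‖ = 1 := by
        rcases Int.units_eq_one_or (Equiv.Perm.sign σ) with h | h <;> simp [h]
      rw [h3, one_mul, ← hprod, ← Finset.prod_pow]
      exact Finset.prod_le_prod (fun i _ => norm_nonneg _) (fun i _ => hentry _ _)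
    calc _ ≤ ∑ _σ : Equiv.Perm (Fin k), (∏ τ, t τ) ^ (k - 1) := Finset.sum_le_sum (fun σ _ => h2 σ)
      _ = _ := by
        rw [Finset.sum_const, Finset.card_univ, Fintype.card_perm, Fintype.card_fin, nsmul_eq_mul]
  have h4 : |(Algebra.discr ℚ y : ℝ)| = ‖(Algebra.embeddingsMatrixReindex ℚ ℂ y e).det‖ ^ 2 := by
    rw [← norm_pow, ← h1]
    simp
  rw [h4]
  gcongr

/-- VW-G6: elements of `J⁻¹` in a box all whose differences are small are on a rational line;
determinant inequality. If `z, z'` in `J⁻¹` satisfy `‖τ z‖, ‖τ z'‖ ≤ t τ` and `z'/z` is irrational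
then `∏ t τ` is large. -/
theorem prod_large (k : ℕ) (hk : 2 ≤ k) : ∃ c : ℝ, 0 < c ∧
    ∀ (L : Type) [Field L] [NumberField L], Module.finrank ℚ L = k → IsPrim L →
      ∀ (J : Ideal (𝓞 L)), J ≠ ⊥ → ∀ (t : (L →+* ℂ) → ℝ) (z z' : L), z ≠ 0 →
      (∀ y ∈ J, ∃ x : 𝓞 L, (y : L) * z = x) → (∀ y ∈ J, ∃ x : 𝓞 L, (y : L) * z' = x) →
      (∀ q : ℚ, z' ≠ algebraMap ℚ L q * z) →
      (∀ τ : L →+* ℂ, ‖τ z‖ ≤ t τ ∧ ‖τ z'‖ ≤ t τ) →
      c * |(discr L : ℝ)| ^ (1 / (2 * ((k : ℝ) - 1))) ≤ (∏ τ, t τ) * J.absNorm := by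
  refine ⟨(((k.factorial : ℝ) ^ 2) ^ (1 / (2 * ((k : ℝ) - 1))))⁻¹, by positivity, ?_⟩
  intro L _ _ hkL hprim J hJ t z z' hz hzJ hz'J hirr ht
  have hk1 : (0 : ℝ) < 2 * ((k : ℝ) - 1) := by
    have : (2 : ℝ) ≤ k := by exact_mod_cast hk
    linarith
  have ht0 : ∀ τ, 0 ≤ t τ := fun τ => le_trans (norm_nonneg _) (ht τ).1
  have hJ0 : (J : FractionalIdeal (𝓞 L)⁰ L) ≠ 0 := by rwa [Ne, FractionalIdeal.coeIdeal_eq_zero]
  let U : (FractionalIdeal (𝓞 L)⁰ L)ˣ := (Units.mk0 (J : FractionalIdeal (𝓞 L)⁰ L) hJ0)⁻¹ ^ (k - 1)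
  have hU : U.1 = ((J : FractionalIdeal (𝓞 L)⁰ L)⁻¹) ^ (k - 1) := by
    simp [U]
  have hli : LinearIndependent ℚ (fun i : Fin k => z ^ (k - 1 - (i : ℕ)) * z' ^ (i : ℕ)) := by
    have h1 := g6_lin k L hkL hprim (z' / z) (by
      intro q hq
      apply hirr q
      rw [← hq]
      field_simp)
    have h2 := h1.map' (LinearMap.mulLeft ℚ (z ^ (k - 1))) (by
      rw [LinearMap.ker_eq_bot]
      intro a b hab
      exact mul_left_cancel₀ (pow_ne_zero _ hz) hab)
    have heq : (fun i : Fin k => z ^ (k - 1 - (i : ℕ)) * z' ^ (i : ℕ)) =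
        (⇑(LinearMap.mulLeft ℚ (z ^ (k - 1))) ∘ fun i : Fin k => (z' / z) ^ (i : ℕ)) := by
      funext i
      have h3 : k - 1 = (k - 1 - (i : ℕ)) + (i : ℕ) := by have := i.2; omega
      simp only [Function.comp_apply, LinearMap.mulLeft_apply]
      conv_rhs => rw [h3, pow_add, div_pow]
      have h4 : z ^ (i : ℕ) ≠ 0 := pow_ne_zero _ hz
      field_simp
    rw [heq]
    exact h2
  have hmem : ∀ i : Fin k, z ^ (k - 1 - (i : ℕ)) * z' ^ (i : ℕ) ∈ U.1 := by
    intro i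
    have h3 : k - 1 = (k - 1 - (i : ℕ)) + (i : ℕ) := by have := i.2; omega
    rw [hU, h3, pow_add]
    have h4 := FractionalIdeal.mul_mem_mul
      (g6_pow_mem _ (g6_mem_inv hJ hzJ) (k - 1 - (i : ℕ)))
      (g6_pow_mem _ (g6_mem_inv hJ hz'J) (i : ℕ))
    convert h4 using 3
    omega
  have hlow := g6_discr hkL U _ hmem hli
  have hup := g6_upper hkL t z z' ht
  have hnorm : (FractionalIdeal.absNorm U.1 : ℚ) = ((J.absNorm : ℚ)⁻¹) ^ (k - 1) := by
    rw [hU, map_pow, map_inv₀, FractionalIdeal.coeIdeal_absNorm]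
  have hN0 : (0 : ℝ) < J.absNorm := by
    have : J.absNorm ≠ 0 := by rwa [Ne, Ideal.absNorm_eq_zero_iff]
    positivity
  have hlow' : |(discr L : ℝ)| * (((J.absNorm : ℝ)⁻¹) ^ (k - 1)) ^ 2 ≤
      |(Algebra.discr ℚ (fun i : Fin k => z ^ (k - 1 - (i : ℕ)) * z' ^ (i : ℕ)) : ℝ)| := by
    rw [hnorm] at hlow
    have h1 := (Rat.cast_le (K := ℝ)).2 hlow
    push_cast at h1
    exact h1
  set P : ℝ := (∏ τ, t τ) * J.absNorm with hP
  have hP0 : 0 ≤ P := mul_nonneg (Finset.prod_nonneg (fun τ _ => ht0 τ)) hN0.le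
  have hmain : |(discr L : ℝ)| ≤ (k.factorial : ℝ) ^ 2 * P ^ (2 * (k - 1)) := by
    have h1 := hlow'.trans hup
    have h2 : |(discr L : ℝ)| = |(discr L : ℝ)| * (((J.absNorm : ℝ)⁻¹) ^ (k - 1)) ^ 2 *
        ((J.absNorm : ℝ) ^ (k - 1)) ^ 2 := by
      rw [mul_assoc, ← mul_pow, ← mul_pow, inv_mul_cancel₀ hN0.ne', one_pow, one_pow, mul_one]
    rw [h2]
    calc _ ≤ ((k.factorial : ℝ) * (∏ τ, t τ) ^ (k - 1)) ^ 2 * ((J.absNorm : ℝ) ^ (k - 1)) ^ 2 := by
          gcongr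
      _ = _ := by rw [hP]; ring
  have hpow : |(discr L : ℝ)| ^ (1 / (2 * ((k : ℝ) - 1))) ≤
      ((k.factorial : ℝ) ^ 2) ^ (1 / (2 * ((k : ℝ) - 1))) * P := by
    calc |(discr L : ℝ)| ^ (1 / (2 * ((k : ℝ) - 1)))
        ≤ ((k.factorial : ℝ) ^ 2 * P ^ (2 * (k - 1))) ^ (1 / (2 * ((k : ℝ) - 1))) := by
          apply Real.rpow_le_rpow (abs_nonneg _) hmain
          positivity
      _ = ((k.factorial : ℝ) ^ 2) ^ (1 / (2 * ((k : ℝ) - 1))) *
          (P ^ (2 * (k - 1))) ^ (1 / (2 * ((k : ℝ) - 1))) := by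
          rw [Real.mul_rpow (by positivity) (by positivity)]
      _ = _ := by
          congr 1
          have h1 : P ^ (2 * (k - 1)) = P ^ (2 * ((k : ℝ) - 1)) := by
            rw [← Real.rpow_natCast]
            congr 1
            push_cast [Nat.cast_sub (show 1 ≤ k by omega)]
            ring
          rw [h1, ← Real.rpow_mul hP0, mul_one_div_cancel hk1.ne', Real.rpow_one]
  rw [inv_mul_le_iff₀ (by positivity)]
  exact hpow

end Pool.Agent.Helper12.VW
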